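import Pool.Agent.Helper97.Nag.Goals

/-!
# Project NAG (MP_d3128a_ag): GENK
-/

set_option autoImplicit false

namespace Pool.Agent.Helper52.Nag.GENK

open Pool.Agent.Helper97.Nag

noncomputable section

/-- the group algebra -/
abbrev AA (r p : ℕ) : Type := AddMonoidAlgebra ℚ (GG r p)

instance (r p : ℕ) : IsDomain (AA r p) := NoZeroDivisors.to_isDomain _

/-- the field of fractions -/
def FF (r p : ℕ) : Type := FractionRing (AA r p)

instance (r p : ℕ) : Field (FF r p) := inferInstanceAs (Field (FractionRing (AA r p)))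

instance (r p : ℕ) : Algebra (AA r p) (FF r p) :=
  inferInstanceAs (Algebra (AA r p) (FractionRing (AA r p)))

instance (r p : ℕ) : IsFractionRing (AA r p) (FF r p) :=
  inferInstanceAs (IsFractionRing (AA r p) (FractionRing (AA r p)))

instance (r p : ℕ) : CharZero (FF r p) :=
  have : CharZero (AA r p) := algebraRat.charZero (AA r p)
  charZero_of_injective_algebraMap (IsFractionRing.injective (AA r p) (FF r p))

/-- the monomials -/
def U (r p : ℕ) : Multiplicative (GG r p) →* (FF r p)ˣ :=
  MonoidHom.toHomUnits (((algebraMap (AA r p) (FF r p) : AA r p →+* FF r p) :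
    AA r p →* FF r p).comp (AddMonoidAlgebra.of ℚ (GG r p)))

/-- the monomials -/
def V (r p : ℕ) (g : GG r p) : (FF r p)ˣ := U r p (Multiplicative.ofAdd g)

theorem V_add {r p : ℕ} (a b : GG r p) : V r p (a + b) = V r p a * V r p b := by
  unfold V
  rw [ofAdd_add, map_mul]

theorem V_zsmul {r p : ℕ} (m : ℤ) (a : GG r p) : V r p (m • a) = V r p a ^ m := by
  unfold V
  rw [ofAdd_zsmul, map_zpow]

theorem V_sum {r p : ℕ} {ι : Type} (s : Finset ι) (f : ι → GG r p) :
    V r p (∑ i ∈ s, f i) = ∏ i ∈ s, V r p (f i) := by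
  unfold V
  rw [ofAdd_sum, map_prod]

/-- basis vectors -/
def ew {r p : ℕ} (i : Fin r × Fin p) : GG r p := (Pi.single i 1, 0, 0)

/-- basis vectors -/
def ex {r p : ℕ} (i : Fin r) : GG r p := (0, Pi.single i 1, 0)

/-- basis vectors -/
def ey {r p : ℕ} (i : Fin r) : GG r p := (0, 0, Pi.single i 1)

theorem V_indep (r p : ℕ) :
    LinearIndependent ℚ fun g : GG r p => ((V r p g : (FF r p)ˣ) : FF r p) := by
  have h1 : LinearIndependent ℚ fun g : GG r p => (AddMonoidAlgebra.single g (1 : ℚ) : AA r p) := by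
    exact (AddMonoidAlgebra.basis (GG r p) ℚ).linearIndependent
  have h2 := h1.map' (algebraMap (AA r p) (FF r p)).toRatAlgHom.toLinearMap (by
    rw [LinearMap.ker_eq_bot]
    exact IsFractionRing.injective (AA r p) (FF r p))
  exact h2

theorem decomp {r p : ℕ} (g : GG r p) :
    g = ∑ i, g.1 i • ew i + ∑ i, g.2.1 i • ex i + ∑ i, g.2.2 i • ey i := by
  refine Prod.ext ?_ (Prod.ext ?_ ?_)
  · funext j
    simp [ew, ex, ey, Prod.fst_sum, Finset.sum_apply, Pi.single_apply]
  · funext j
    simp [ew, ex, ey, Prod.fst_sum, Prod.snd_sum, Finset.sum_apply, Pi.single_apply]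
  · funext j
    simp [ew, ex, ey, Prod.fst_sum, Prod.snd_sum, Finset.sum_apply, Pi.single_apply]

theorem monK_eq {r p : ℕ} (g : GG r p) :
    monK (fun i => V r p (ew i)) (fun i => V r p (ex i)) (fun i => V r p (ey i)) g = V r p g := by
  conv_rhs => rw [decomp g]
  rw [V_add, V_add, V_sum, V_sum, V_sum, monK]
  simp only [V_zsmul]

theorem V_inj {r p : ℕ} {a b : GG r p} (h : V r p a = V r p b) : a = b := by
  have h1 := (V_indep r p).injective
  exact h1 (congrArg Units.val h)

theorem t : S_GENK := by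
  intro r p
  refine ⟨FF r p, inferInstance, inferInstance, fun i => V r p (ew i), fun i => V r p (ex i),
    fun i => V r p (ey i), ?_, ?_, ?_⟩
  · unfold GenK
    simp only [monK_eq]
    exact V_indep r p
  · intro i j hij
    have h1 : (ew i : GG r p) = ew j := V_inj hij
    have h2 : (Pi.single i (1 : ℤ) : Fin r × Fin p → ℤ) = Pi.single j 1 := congrArg Prod.fst h1
    by_contra hne
    have h3 := congrFun h2 i
    rw [Pi.single_eq_same, Pi.single_eq_of_ne hne] at h3
    exact one_ne_zero h3
  · intro l i hli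
    have h1 : (ex l : GG r p) = ew i := V_inj hli
    have h2 : (0 : Fin r × Fin p → ℤ) = Pi.single i 1 := congrArg Prod.fst h1
    have h3 := congrFun h2 i
    rw [Pi.single_eq_same] at h3
    exact zero_ne_one h3

end

end Pool.Agent.Helper52.Nag.GENK
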